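import Mathlib

/-!
# A well ordered unbounded family of functions (ZFC)
-/

set_option autoImplicit false

open Set Filter Cardinal

namespace Pool.Agent.R818.AS

/-- Eventual domination. -/
def LEs (f g : ℕ → ℕ) : Prop := ∃ m, ∀ j, m ≤ j → f j ≤ g j

theorem LEs.trans {f g h : ℕ → ℕ} (h1 : LEs f g) (h2 : LEs g h) : LEs f h := by
  obtain ⟨m, hm⟩ := h1
  obtain ⟨k, hk⟩ := h2
  exact ⟨max m k, fun j hj => (hm j (le_trans (le_max_left _ _) hj)).trans
    (hk j (le_trans (le_max_right _ _) hj))⟩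

/-- A set of functions is bounded. -/
def Bdd (F : Set (ℕ → ℕ)) : Prop := ∃ g, ∀ f ∈ F, LEs f g

/-- A set of functions is small if every family of functions indexed by it is bounded. -/
def Small (M : Set (ℕ → ℕ)) : Prop :=
  ∀ G : (ℕ → ℕ) → (ℕ → ℕ), ∃ g, ∀ b ∈ M, LEs (G b) g

theorem bdd_countable {F : Set (ℕ → ℕ)} (hF : F.Countable) : Bdd F := by
  rcases F.eq_empty_or_nonempty with rfl | hne
  · exact ⟨0, fun f hf => absurd hf (by simp)⟩
  obtain ⟨e, he⟩ := hF.exists_eq_range hne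
  refine ⟨fun j => (Finset.range (j + 1)).sup (fun i => e i j), ?_⟩
  intro f hf
  rw [he] at hf
  obtain ⟨i, rfl⟩ := hf
  refine ⟨i, fun j hj => ?_⟩
  exact Finset.le_sup (f := fun i => e i j) (Finset.mem_range.2 (by omega))

theorem not_bdd_univ : ¬ Bdd Set.univ := by
  rintro ⟨g, hg⟩
  obtain ⟨m, hm⟩ := hg (fun j => g j + 1) trivial
  have := hm m le_rfl
  simp at this

theorem exists_min : ∃ F : Set (ℕ → ℕ), ¬ Bdd F ∧ ∀ F' : Set (ℕ → ℕ), #F' < #F → Bdd F' := by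
  have hne : {c : Cardinal.{0} | ∃ F : Set (ℕ → ℕ), ¬ Bdd F ∧ #F = c}.Nonempty :=
    ⟨_, Set.univ, not_bdd_univ, rfl⟩
  obtain ⟨F, hF, hc⟩ := csInf_mem hne
  refine ⟨F, hF, fun F' hF' => ?_⟩
  by_contra hn
  have := csInf_le' (show #F' ∈ {c : Cardinal.{0} | ∃ F : Set (ℕ → ℕ), ¬ Bdd F ∧ #F = c} from
    ⟨F', hn, rfl⟩)
  rw [← hc] at this
  exact absurd hF' (not_lt.2 this)

theorem exists_family : ∃ M : Set (ℕ → ℕ), ∀ g : ℕ → ℕ, ∃ I : Set ℕ, I.Infinite ∧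
    ∃ M' : Set (ℕ → ℕ), Small M' ∧
      (∀ b ∈ M, b ∉ M' → ∃ m, ∀ j ∈ I, m ≤ j → g j < b j) ∧
      (∃ b ∈ M, ∀ j ∈ I, g j < b j) := by
  classical
  obtain ⟨F, hF, hmin⟩ := exists_min
  have hunc : ℵ₀ < #F := by
    by_contra hle
    rw [not_lt, Cardinal.le_aleph0_iff_set_countable] at hle
    exact hF (bdd_countable hle)
  let κ := #F
  let J := κ.ord.ToType
  have hJ : #J = #F := by simp [J, κ]
  obtain ⟨e⟩ := Cardinal.eq.1 hJ
  have hwf : WellFounded (fun a b : J => a < b) := wellFounded_lt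
  -- the recursion
  let step : (α : J) → ((β : J) → β < α → (ℕ → ℕ)) → (ℕ → ℕ) := fun α rec =>
    if h : ∃ g, (∀ β, ∀ hβ : β < α, LEs (rec β hβ) g) ∧ LEs (e α : ℕ → ℕ) g then h.choose else 0
  let b : J → (ℕ → ℕ) := hwf.fix step
  have hb : ∀ α, b α = step α (fun β _ => b β) := fun α => hwf.fix_eq step α
  have hcard : ∀ α : J, #(b '' Set.Iio α) < #F := by
    intro α
    refine lt_of_le_of_lt Cardinal.mk_image_le ?_
    exact Cardinal.mk_Iio_toType_ord_lt α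
  have hex : ∀ α : J, ∃ g, (∀ β, ∀ _ : β < α, LEs (b β) g) ∧ LEs (e α : ℕ → ℕ) g := by
    intro α
    have h1 : #(insert (e α : ℕ → ℕ) (b '' Set.Iio α) : Set (ℕ → ℕ)) < #F := by
      refine lt_of_le_of_lt Cardinal.mk_insert_le ?_
      exact Cardinal.add_lt_of_lt hunc.le (hcard α) (lt_of_lt_of_le Cardinal.one_lt_aleph0 hunc.le)
    obtain ⟨g, hg⟩ := hmin _ h1
    exact ⟨g, fun β hβ => hg _ (Set.mem_insert_of_mem _ ⟨β, hβ, rfl⟩),
      hg _ (Set.mem_insert _ _)⟩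
  have hspec : ∀ α : J, (∀ β, β < α → LEs (b β) (b α)) ∧ LEs (e α : ℕ → ℕ) (b α) := by
    intro α
    have h := hex α
    have h2 : b α = h.choose := by
      rw [hb α]
      exact dif_pos h
    rw [h2]
    exact ⟨fun β hβ => h.choose_spec.1 β hβ, h.choose_spec.2⟩
  refine ⟨Set.range b, fun g => ?_⟩
  have hun : ∃ α, ¬ LEs (b α) g := by
    by_contra hall
    push_neg at hall
    apply hF
    refine ⟨g, fun f hf => ?_⟩
    have := (hspec (e.symm ⟨f, hf⟩)).2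
    rw [Equiv.apply_symm_apply] at this
    exact this.trans (hall _)
  obtain ⟨α, hα⟩ := hun
  refine ⟨{j | g j < b α j}, ?_, b '' Set.Iio α, ?_, ?_, ?_⟩
  · intro hfin
    apply hα
    obtain ⟨m, hm⟩ := hfin.bddAbove
    refine ⟨m + 1, fun j hj => ?_⟩
    by_contra hlt
    rw [not_le] at hlt
    have := hm (show j ∈ {j | g j < b α j} from hlt)
    omega
  · intro G
    have h1 : #(G '' (b '' Set.Iio α) : Set (ℕ → ℕ)) < #F :=
      lt_of_le_of_lt Cardinal.mk_image_le (hcard α)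
    obtain ⟨g', hg'⟩ := hmin _ h1
    exact ⟨g', fun c hc => hg' _ ⟨c, hc, rfl⟩⟩
  · rintro _ ⟨β, rfl⟩ hβ
    rcases lt_trichotomy β α with h | h | h
    · exact absurd ⟨β, h, rfl⟩ hβ
    · subst h
      exact ⟨0, fun j hj _ => hj⟩
    · obtain ⟨m, hm⟩ := (hspec β).1 α h
      exact ⟨m, fun j hj hmj => lt_of_lt_of_le hj (hm j hmj)⟩
  · exact ⟨b α, ⟨α, rfl⟩, fun j hj => hj⟩

end Pool.Agent.R818.AS
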