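import Mathlib
import Pool.Agent.R818.AS.Fam

/-!
# The countable Boolean topological group
-/

set_option autoImplicit false

open Set Filter Topology

namespace Pool.Agent.R818.AS

/-- Nodes of the tree of finite sequences of natural numbers. -/
abbrev T : Type := Σ n : ℕ, (Fin n → ℕ)

/-- `t` is an initial segment of `b`. -/
def Pre (t : T) (b : ℕ → ℕ) : Prop := ∀ i : Fin t.1, t.2 i = b i

open Classical in
/-- The parity of the number of nodes of `a` on the branch `b`. -/
noncomputable def ev (b : ℕ → ℕ) : (T →₀ ZMod 2) →+ ZMod 2 :=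
  Finsupp.liftAddHom (fun t => if Pre t b then AddMonoidHom.id _ else 0)

/-- The part of `a` on the levels below `n`. -/
noncomputable def lv (n : ℕ) : (T →₀ ZMod 2) →+ (T →₀ ZMod 2) :=
  Finsupp.filterAddHom (fun t : T => t.1 < n)

open Classical in
theorem ev_single (b : ℕ → ℕ) (t : T) (c : ZMod 2) :
    ev b (Finsupp.single t c) = if Pre t b then c else 0 := by
  unfold ev
  rw [Finsupp.liftAddHom_apply_single]
  split_ifs <;> rfl

theorem ev_congr {a : T →₀ ZMod 2} {b c : ℕ → ℕ} (h : ∀ t ∈ a.support, (Pre t b ↔ Pre t c)) :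
    ev b a = ev c a := by
  classical
  unfold ev
  rw [Finsupp.liftAddHom_apply, Finsupp.liftAddHom_apply]
  refine Finset.sum_congr rfl (fun t ht => ?_)
  have := h t ht
  simp only [this]

theorem ev_eq_zero {a : T →₀ ZMod 2} {b : ℕ → ℕ} (h : ∀ t ∈ a.support, ¬ Pre t b) :
    ev b a = 0 := by
  classical
  unfold ev
  rw [Finsupp.liftAddHom_apply]
  refine Finset.sum_eq_zero (fun t ht => ?_)
  simp [h t ht]

theorem lv_apply (n : ℕ) (a : T →₀ ZMod 2) (t : T) :
    lv n a t = if t.1 < n then a t else 0 := by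
  classical
  unfold lv
  simp [Finsupp.filterAddHom, Finsupp.filter_apply]

theorem lv_eq_zero {n : ℕ} {a : T →₀ ZMod 2} : lv n a = 0 ↔ ∀ t ∈ a.support, n ≤ t.1 := by
  constructor
  · intro h t ht
    by_contra hn
    rw [not_le] at hn
    have := DFunLike.congr_fun h t
    rw [lv_apply, if_pos hn] at this
    exact (Finsupp.mem_support_iff.1 ht) this
  · intro h
    ext t
    rw [lv_apply]
    split_ifs with hn
    · by_contra hne
      have := h t (Finsupp.mem_support_iff.2 hne)
      omega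
    · rfl

theorem lv_lv {m n : ℕ} (h : m ≤ n) (a : T →₀ ZMod 2) : lv m (lv n a) = lv m a := by
  ext t
  rw [lv_apply, lv_apply, lv_apply]
  split_ifs with h1 h2
  · rfl
  · omega
  · rfl

/-- The underlying set of the group. -/
def W : Type := (T →₀ ZMod 2) × ZMod 2

noncomputable instance : AddCommGroup W := inferInstanceAs (AddCommGroup ((T →₀ ZMod 2) × ZMod 2))
instance : TopologicalSpace W := ⊥
instance : DiscreteTopology W := ⟨rfl⟩

/-- The group `H M`; as a group it does not depend on `M`. -/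
def H (_ : Set (ℕ → ℕ)) : Type := (T →₀ ZMod 2) × ZMod 2

noncomputable instance (M : Set (ℕ → ℕ)) : AddCommGroup (H M) :=
  inferInstanceAs (AddCommGroup ((T →₀ ZMod 2) × ZMod 2))

instance (M : Set (ℕ → ℕ)) : Countable (H M) :=
  inferInstanceAs (Countable ((T →₀ ZMod 2) × ZMod 2))

/-- The character of `H M` given by the branch `b`. -/
noncomputable def fx {M : Set (ℕ → ℕ)} (x : H M) (b : ℕ → ℕ) : ZMod 2 := ev b x.1 + x.2

/-- The map defining the topology. -/
noncomputable def Phi (M : Set (ℕ → ℕ)) : H M →+ (ℕ × M → W) where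
  toFun x p := (lv p.1 x.1, fx x p.2)
  map_zero' := by
    funext p
    show ((lv p.1 0, ev _ 0 + 0) : (T →₀ ZMod 2) × ZMod 2) = 0
    simp
  map_add' x y := by
    funext p
    show ((lv p.1 (x.1 + y.1), ev _ (x.1 + y.1) + (x.2 + y.2)) : (T →₀ ZMod 2) × ZMod 2) =
      (lv p.1 x.1, ev _ x.1 + x.2) + (lv p.1 y.1, ev _ y.1 + y.2)
    rw [map_add, map_add]
    ext1
    · rfl
    · show _ + _ + (_ + _) = (_ + _) + (_ + _)
      ring

noncomputable instance topH (M : Set (ℕ → ℕ)) : TopologicalSpace (H M) :=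
  TopologicalSpace.induced (Phi M) inferInstance

instance : IsTopologicalAddGroup W := inferInstance

instance (M : Set (ℕ → ℕ)) : IsTopologicalAddGroup (H M) :=
  topologicalAddGroup_induced (Phi M)

theorem phi_inj {M : Set (ℕ → ℕ)} (hM : M.Nonempty) : Function.Injective (Phi M) := by
  obtain ⟨b, hb⟩ := hM
  intro x y h
  have h1 : x.1 = y.1 := by
    ext t
    have := congrArg Prod.fst (congrFun h (t.1 + 1, ⟨b, hb⟩))
    have h2 := DFunLike.congr_fun (show lv (t.1 + 1) x.1 = lv (t.1 + 1) y.1 from this) t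
    rw [lv_apply, lv_apply, if_pos (by omega), if_pos (by omega)] at h2
    exact h2
  have h2 : fx x b = fx y b := congrArg Prod.snd (congrFun h (0, ⟨b, hb⟩))
  unfold fx at h2
  rw [h1] at h2
  exact Prod.ext h1 (add_left_cancel h2)

theorem t35 {M : Set (ℕ → ℕ)} (hM : M.Nonempty) : T35Space (H M) := by
  have : Topology.IsEmbedding (Phi M) := ⟨⟨rfl⟩, phi_inj hM⟩
  exact this.t35Space

theorem mem_nhds_iff' {M : Set (ℕ → ℕ)} (hM : M.Nonempty) {y : H M} {s : Set (H M)} :
    s ∈ 𝓝 y ↔ ∃ (n : ℕ) (F : Finset (ℕ → ℕ)), (∀ b ∈ F, b ∈ M) ∧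
      ∀ z : H M, lv n z.1 = lv n y.1 → (∀ b ∈ F, fx z b = fx y b) → z ∈ s := by
  classical
  constructor
  · intro hs
    rw [nhds_induced, mem_comap] at hs
    obtain ⟨t, ht, hts⟩ := hs
    rw [nhds_pi, Filter.mem_pi] at ht
    obtain ⟨I, hI, u, hu, hut⟩ := ht
    refine ⟨hI.toFinset.sup (fun p => p.1), hI.toFinset.image (fun p => (p.2 : ℕ → ℕ)), ?_, ?_⟩
    · intro b hb
      rw [Finset.mem_image] at hb
      obtain ⟨p, _, rfl⟩ := hb
      exact p.2.2
    · intro z hz1 hz2
      apply hts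
      apply hut
      intro p hp
      have hp' : p ∈ hI.toFinset := hI.mem_toFinset.2 hp
      have : Phi M z p = Phi M y p := by
        apply Prod.ext
        · show lv p.1 z.1 = lv p.1 y.1
          have hle : p.1 ≤ hI.toFinset.sup (fun p => p.1) :=
            Finset.le_sup (f := fun p : ℕ × M => p.1) hp'
          rw [← lv_lv hle z.1, ← lv_lv hle y.1, hz1]
        · exact hz2 _ (Finset.mem_image_of_mem _ hp')
      rw [this]
      exact mem_of_mem_nhds (hu p)
  · rintro ⟨n, F, hF, h⟩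
    obtain ⟨b0, hb0⟩ := hM
    have hc : Continuous (Phi M) := continuous_induced_dom
    have key : ∀ b (hb : b ∈ M), {z : H M | Phi M z (n, ⟨b, hb⟩) = Phi M y (n, ⟨b, hb⟩)} ∈ 𝓝 y := by
      intro b hb
      have hc' : Continuous (fun z => Phi M z (n, ⟨b, hb⟩)) := (continuous_apply _).comp hc
      have : IsOpen ((fun z => Phi M z (n, ⟨b, hb⟩)) ⁻¹' {Phi M y (n, ⟨b, hb⟩)}) :=
        (isOpen_discrete _).preimage hc'
      exact this.mem_nhds rfl
    have h2 : (⋂ b ∈ F, {z : H M | fx z b = fx y b}) ∈ 𝓝 y := by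
      rw [Finset.iInter_mem_sets]
      intro b hb
      filter_upwards [key b (hF b hb)] with z hz
      exact congrArg Prod.snd hz
    filter_upwards [key b0 hb0, h2] with z hz1 hz2
    refine h z (congrArg Prod.fst hz1) ?_
    simpa using hz2

theorem tendsto_iff' {M : Set (ℕ → ℕ)} (hM : M.Nonempty) {α : Type} {l : Filter α} {x : α → H M}
    {y : H M} : Tendsto x l (𝓝 y) ↔ (∀ n, ∀ᶠ k in l, lv n (x k).1 = lv n y.1) ∧
      ∀ b ∈ M, ∀ᶠ k in l, fx (x k) b = fx y b := by
  constructor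
  · intro h
    constructor
    · intro n
      exact h.eventually (p := fun z : H M => lv n z.1 = lv n y.1)
        ((mem_nhds_iff' hM).2 ⟨n, ∅, by simp, fun z hz _ => hz⟩)
    · intro b hb
      refine h.eventually (p := fun z : H M => fx z b = fx y b)
        ((mem_nhds_iff' hM).2 ⟨0, {b}, by simpa using hb, fun z _ hz => ?_⟩)
      exact hz b (by simp)
  · rintro ⟨h1, h2⟩ s hs
    obtain ⟨n, F, hF, h⟩ := (mem_nhds_iff' hM).1 hs
    have h3 : ∀ᶠ k in l, ∀ b ∈ F, fx (x k) b = fx y b :=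
      (Filter.eventually_all_finset F).2 (fun b hb => h2 b (hF b hb))
    have h4 : ∀ᶠ k in l, x k ∈ s := by
      filter_upwards [h1 n, h3] with k hk1 hk2
      exact h _ hk1 hk2
    exact h4

open Classical in
/-- The first difference plus one (zero for equal functions). -/
noncomputable def dl (b c : ℕ → ℕ) : ℕ := if h : ∃ i, b i ≠ c i then Nat.find h + 1 else 0

theorem dl_spec {b c : ℕ → ℕ} (h : b ≠ c) : ∃ i, i < dl b c ∧ b i ≠ c i := by
  classical
  have h' : ∃ i, b i ≠ c i := Function.ne_iff.1 h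
  refine ⟨Nat.find h', ?_, Nat.find_spec h'⟩
  unfold dl
  rw [dif_pos h']
  omega

theorem exists_dense (n : ℕ) (F : Finset (ℕ → ℕ)) :
    ∃ a : T →₀ ZMod 2, lv n a = 0 ∧ ∀ b ∈ F, ev b a = 1 := by
  classical
  let l := max n (F.sup (fun b => F.sup (fun c => dl b c)))
  refine ⟨∑ c ∈ F, Finsupp.single (⟨l, fun i => c i⟩ : T) 1, ?_, ?_⟩
  · rw [map_sum]
    refine Finset.sum_eq_zero (fun c _ => ?_)
    rw [lv_eq_zero]
    intro t ht
    have := Finsupp.support_single_subset ht
    rw [Finset.mem_singleton] at this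
    rw [this]
    exact le_max_left _ _
  · intro b hb
    rw [map_sum]
    rw [Finset.sum_eq_single b]
    · rw [ev_single, if_pos]
      intro i
      rfl
    · intro c hc hcb
      rw [ev_single, if_neg]
      intro hp
      obtain ⟨i, hi, hne⟩ := dl_spec hcb
      have hl : i < l := by
        refine lt_of_lt_of_le hi (le_trans ?_ (le_max_right _ _))
        exact le_trans (Finset.le_sup (f := fun c' => dl c c') hb)
          (Finset.le_sup (f := fun b' => F.sup (fun c' => dl b' c')) hc)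
      exact hne (hp ⟨i, hl⟩)
    · intro h
      exact absurd hb h

/-- Extension of a finite sequence by zeros. -/
def ext {l : ℕ} (s : Fin l → ℕ) : ℕ → ℕ := fun i => if h : i < l then s ⟨i, h⟩ else 0

open Classical in
/-- The far away copy of `u` on level `l`, below `N`, avoiding the branches of `F`. -/
noncomputable def vv (u : T →₀ ZMod 2) (l N : ℕ) (F : Finset (ℕ → ℕ)) : T →₀ ZMod 2 :=
  ∑ s ∈ Fintype.piFinset (fun _ : Fin l => Finset.range (N + 1)),
    if (∀ c ∈ F, ∃ i : Fin l, s i ≠ c i) then Finsupp.single (⟨l, s⟩ : T) (ev (ext s) u) else 0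

theorem lv_vv (u : T →₀ ZMod 2) (l N : ℕ) (F : Finset (ℕ → ℕ)) {n : ℕ} (h : n ≤ l) :
    lv n (vv u l N F) = 0 := by
  classical
  unfold vv
  rw [map_sum]
  refine Finset.sum_eq_zero (fun s _ => ?_)
  split_ifs
  · rw [lv_eq_zero]
    intro t ht
    have := Finsupp.support_single_subset ht
    rw [Finset.mem_singleton] at this
    rw [this]
    exact h
  · simp

open Classical in
theorem ev_vv (u : T →₀ ZMod 2) (l N : ℕ) (F : Finset (ℕ → ℕ)) (hu : ∀ t ∈ u.support, t.1 ≤ l)
    (b : ℕ → ℕ) : ev b (vv u l N F) =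
      if (∀ i < l, b i ≤ N) ∧ (∀ c ∈ F, ∃ i < l, b i ≠ c i) then ev b u else 0 := by
  unfold vv
  rw [map_sum]
  let s0 : Fin l → ℕ := fun i => b i
  have hs : ∀ s : Fin l → ℕ, Pre (⟨l, s⟩ : T) b ↔ s = s0 := by
    intro s
    constructor
    · intro h
      funext i
      exact h i
    · rintro rfl i
      rfl
  have hext : ev (ext s0) u = ev b u := by
    apply ev_congr
    intro t ht
    have hle := hu t ht
    have : ∀ i : Fin t.1, ext s0 i = b i := by
      intro i
      unfold ext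
      rw [dif_pos (lt_of_lt_of_le i.2 hle)]
    unfold Pre
    simp only [this]
  have hterm : ∀ s : Fin l → ℕ, ev b (if (∀ c ∈ F, ∃ i : Fin l, s i ≠ c i) then
      Finsupp.single (⟨l, s⟩ : T) (ev (ext s) u) else 0) =
      if s = s0 then (if (∀ c ∈ F, ∃ i : Fin l, s i ≠ c i) then ev (ext s) u else 0) else 0 := by
    intro s
    by_cases h1 : (∀ c ∈ F, ∃ i : Fin l, s i ≠ c i)
    · rw [if_pos h1, if_pos h1, ev_single]
      by_cases h2 : s = s0
      · rw [if_pos h2, if_pos ((hs s).2 h2)]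
      · rw [if_neg h2, if_neg (fun h => h2 ((hs s).1 h))]
    · rw [if_neg h1, if_neg h1, map_zero]
      simp
  rw [Finset.sum_congr rfl (fun s _ => hterm s), Finset.sum_ite_eq']
  have e1 : s0 ∈ Fintype.piFinset (fun _ : Fin l => Finset.range (N + 1)) ↔ ∀ i < l, b i ≤ N := by
    rw [Fintype.mem_piFinset]
    constructor
    · intro h i hi
      have := h ⟨i, hi⟩
      rw [Finset.mem_range] at this
      exact Nat.lt_succ_iff.1 this
    · intro h i
      rw [Finset.mem_range]
      exact Nat.lt_succ_iff.2 (h i i.2)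
  have e2 : (∀ c ∈ F, ∃ i : Fin l, s0 i ≠ c i) ↔ ∀ c ∈ F, ∃ i < l, b i ≠ c i := by
    constructor
    · intro h c hc
      obtain ⟨i, hi⟩ := h c hc
      exact ⟨i, i.2, hi⟩
    · intro h c hc
      obtain ⟨i, hi, hne⟩ := h c hc
      exact ⟨⟨i, hi⟩, hne⟩
  rw [hext]
  by_cases h1 : ∀ i < l, b i ≤ N <;> by_cases h2 : ∀ c ∈ F, ∃ i < l, b i ≠ c i
  · rw [if_pos (e1.2 h1), if_pos (e2.2 h2), if_pos ⟨h1, h2⟩]
  · rw [if_pos (e1.2 h1), if_neg (fun h => h2 (e2.1 h)), if_neg (fun h => h2 h.2)]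
  · rw [if_neg (fun h => h1 (e1.1 h)), if_neg (fun h => h1 h.1)]
  · rw [if_neg (fun h => h1 (e1.1 h)), if_neg (fun h => h1 h.1)]

end Pool.Agent.R818.AS
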