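import Mathlib
import Pool.Agent.R818.AS.Grp

/-!
# The strong kappa-Frechet-Urysohn property and the sequentially closed dense subgroup
-/

set_option autoImplicit false

open Set Filter Topology

namespace Pool.Agent.R818.AS

/-- The combinatorial property of the family. -/
def Good (M : Set (ℕ → ℕ)) : Prop := ∀ g : ℕ → ℕ, ∃ I : Set ℕ, I.Infinite ∧
    ∃ M' : Set (ℕ → ℕ), Small M' ∧
      (∀ b ∈ M, b ∉ M' → ∃ m, ∀ j ∈ I, m ≤ j → g j < b j) ∧
      (∃ b ∈ M, ∀ j ∈ I, g j < b j)

theorem Good.nonempty {M : Set (ℕ → ℕ)} (h : Good M) : M.Nonempty := by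
  obtain ⟨I, _, M', _, _, b, hb, _⟩ := h 0
  exact ⟨b, hb⟩

/-- the maximal value at place `j` of nodes of `u` -/
noncomputable def gg (u : T →₀ ZMod 2) (j : ℕ) : ℕ :=
  u.support.sup (fun t => if h : j < t.1 then t.2 ⟨j, h⟩ else 0)

theorem ev_zero_of_gg {u : T →₀ ZMod 2} {j : ℕ} {b : ℕ → ℕ} (hu : lv (j + 1) u = 0)
    (h : gg u j < b j) : ev b u = 0 := by
  apply ev_eq_zero
  intro t ht hp
  have h1 : j < t.1 := lv_eq_zero.1 hu t ht
  have h2 : (if h : j < t.1 then t.2 ⟨j, h⟩ else 0) ≤ gg u j :=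
    Finset.le_sup (f := fun t : T => if h : j < t.1 then t.2 ⟨j, h⟩ else 0) ht
  rw [dif_pos h1] at h2
  have h3 := hp ⟨j, h1⟩
  rw [h3] at h2
  simp only at h2
  omega

/-- The element of `H M` with first coordinate `a`, second coordinate zero. -/
def inA {M : Set (ℕ → ℕ)} (a : T →₀ ZMod 2) : H M := (a, 0)

theorem fx_add {M : Set (ℕ → ℕ)} (x y : H M) (b : ℕ → ℕ) : fx (x + y) b = fx x b + fx y b := by
  show ev b (x.1 + y.1) + (x.2 + y.2) = (ev b x.1 + x.2) + (ev b y.1 + y.2)
  rw [map_add]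
  ring

theorem fx_inA {M : Set (ℕ → ℕ)} (a : T →₀ ZMod 2) (b : ℕ → ℕ) :
    fx (inA a : H M) b = ev b a := by
  show ev b a + 0 = ev b a
  rw [add_zero]

theorem two_eq (x : ZMod 2) : x + x = 0 := by
  revert x; decide

theorem strong_kFU {M : Set (ℕ → ℕ)} (hM : Good M) (G : ℕ → Set (H M)) (hG : ∀ n, IsOpen (G n))
    (x0 : H M) (hx : ∀ n, x0 ∈ closure (G n)) :
    ∃ φ : ℕ → ℕ, StrictMono φ ∧ ∃ y : ℕ → H M, (∀ k, y k ∈ G (φ k)) ∧
      Tendsto y atTop (𝓝 x0) := by
  classical
  have hne := hM.nonempty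
  -- one step
  have hstep : ∀ (j : ℕ) (E : Finset (ℕ → ℕ)), ∃ (u : T →₀ ZMod 2) (m : ℕ) (F : Finset (ℕ → ℕ)),
      (∀ b ∈ E, b ∈ M) → lv (j + 1) u = 0 ∧ (∀ b ∈ E, ev b u = 0) ∧ (∀ b ∈ F, b ∈ M) ∧
      ∀ z : H M, lv m z.1 = lv m (x0 + inA u).1 →
        (∀ b ∈ F, fx z b = fx (x0 + inA u) b) → z ∈ G j := by
    intro j E
    by_cases hE : ∀ b ∈ E, b ∈ M
    · -- a point of `G j` in the neighbourhood
      have hN : {z : H M | lv (j + 1) z.1 = lv (j + 1) x0.1 ∧ ∀ b ∈ E, fx z b = fx x0 b} ∈ 𝓝 x0 :=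
        (mem_nhds_iff' hne).2 ⟨j + 1, E, hE, fun z h1 h2 => ⟨h1, h2⟩⟩
      obtain ⟨z, hz1, hz2⟩ := mem_closure_iff_nhds.1 (hx j) _ hN
      obtain ⟨hz3, hz4⟩ := hz1
      obtain ⟨m, F, hF, hmF⟩ := (mem_nhds_iff' hne).1 ((hG j).mem_nhds hz2)
      -- correct the second coordinate
      obtain ⟨a, ha1, ha2⟩ := exists_dense (max m (j + 1)) (F ∪ E)
      let w : T →₀ ZMod 2 := if z.2 = x0.2 then z.1 - x0.1 else z.1 - x0.1 + a
      have hlev : ∀ n ≤ max m (j + 1), lv n w = lv n z.1 - lv n x0.1 := by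
        intro n hn
        have ha : lv n a = 0 := by
          rw [← lv_lv hn a, ha1, map_zero]
        simp only [w]
        split_ifs
        · rw [map_sub]
        · rw [map_add, map_sub, ha, add_zero]
      have hfx : ∀ b ∈ F ∪ E, fx (x0 + inA w) b = fx z b := by
        intro b hb
        rw [fx_add, fx_inA]
        simp only [w]
        unfold fx
        split_ifs with h
        · rw [map_sub, ← h]
          ring
        · rw [map_add, map_sub, ha2 b hb]
          have h2 : z.2 = x0.2 + 1 := by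
            revert h
            generalize z.2 = p
            generalize x0.2 = q
            revert p q
            decide
          rw [h2]
          ring
      refine ⟨w, max m (j + 1), F, fun _ => ⟨?_, ?_, hF, ?_⟩⟩
      · rw [hlev _ (le_max_right _ _), hz3, sub_self]
      · intro b hb
        have h1 := hfx b (Finset.mem_union_right _ hb)
        rw [fx_add, fx_inA, hz4 b hb] at h1
        exact add_eq_left.1 h1
      · intro z' h1 h2
        apply hmF
        · rw [← lv_lv (le_max_left m (j + 1)) z'.1, h1]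
          rw [lv_lv (le_max_left m (j + 1))]
          show lv m (x0.1 + w) = _
          rw [map_add, hlev _ (le_max_left _ _)]
          abel
        · intro b hb
          rw [h2 b hb, hfx b (Finset.mem_union_left _ hb)]
    · exact ⟨0, 0, ∅, fun h => absurd h hE⟩
  choose U mm FF hP using hstep
  let E : ℕ → Finset (ℕ → ℕ) := fun n => Nat.rec ∅ (fun j e => e ∪ FF j e) n
  have hE0 : E 0 = ∅ := rfl
  have hE1 : ∀ j, E (j + 1) = E j ∪ FF j (E j) := fun j => rfl
  have hEM : ∀ j, ∀ b ∈ E j, b ∈ M := by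
    intro j
    induction j with
    | zero => intro b hb; rw [hE0] at hb; simp at hb
    | succ j ih =>
      intro b hb
      rw [hE1, Finset.mem_union] at hb
      rcases hb with hb | hb
      · exact ih b hb
      · exact (hP j (E j) ih).2.2.1 b hb
  let u : ℕ → (T →₀ ZMod 2) := fun j => U j (E j)
  let F : ℕ → Finset (ℕ → ℕ) := fun j => FF j (E j)
  let m : ℕ → ℕ := fun j => mm j (E j)
  have hu1 : ∀ j, lv (j + 1) (u j) = 0 := fun j => (hP j (E j) (hEM j)).1
  have hu2 : ∀ j, ∀ b ∈ E j, ev b (u j) = 0 := fun j => (hP j (E j) (hEM j)).2.1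
  have hu3 : ∀ j, ∀ z : H M, lv (m j) z.1 = lv (m j) (x0 + inA (u j)).1 →
        (∀ b ∈ F j, fx z b = fx (x0 + inA (u j)) b) → z ∈ G j :=
    fun j => (hP j (E j) (hEM j)).2.2.2
  have hEmono : ∀ i j, i < j → F i ⊆ E j := by
    intro i j hij
    induction j with
    | zero => omega
    | succ j ih =>
      rw [hE1]
      rcases Nat.lt_succ_iff_lt_or_eq.1 hij with h | h
      · exact (ih h).trans Finset.subset_union_left
      · subst h
        exact Finset.subset_union_right
  -- the index set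
  obtain ⟨I, hI, M', hM', hbig, _⟩ := hM (fun j => gg (u j) j)
  obtain ⟨l', hl'⟩ := hM' (fun b j => (F j).sup (fun c => dl b c))
  let l : ℕ → ℕ := fun j => max (l' j) (max (m j) (max (j + 1) ((u j).support.sup (fun t => t.1))))
  obtain ⟨N, hN⟩ := hM' (fun b j => (Finset.range (l j)).sup (fun i => b i))
  let v : ℕ → (T →₀ ZMod 2) := fun j => vv (u j) (l j) (N j) (F j)
  have hul : ∀ j, ∀ t ∈ (u j).support, t.1 ≤ l j := by
    intro j t ht
    refine le_trans (Finset.le_sup (f := fun t : T => t.1) ht) ?_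
    exact le_trans (le_max_right _ _) (le_trans (le_max_right _ _) (le_max_right _ _))
  have hml : ∀ j, m j ≤ l j := fun j => le_trans (le_max_left _ _) (le_max_right _ _)
  have hjl : ∀ j, j + 1 ≤ l j := fun j =>
    le_trans (le_max_left _ _) (le_trans (le_max_right _ _) (le_max_right _ _))
  have hev : ∀ j b, ev b (v j) = if (∀ i < l j, b i ≤ N j) ∧ (∀ c ∈ F j, ∃ i < l j, b i ≠ c i)
      then ev b (u j) else 0 := fun j b => ev_vv _ _ _ _ (hul j) b
  have hevF : ∀ j, ∀ b ∈ F j, ev b (v j) = 0 := by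
    intro j b hb
    rw [hev, if_neg]
    rintro ⟨_, h⟩
    obtain ⟨i, _, hi⟩ := h b hb
    exact hi rfl
  have hevz : ∀ j b, ev b (u j) = 0 → ev b (u j + v j) = 0 := by
    intro j b h
    rw [map_add, hev, h]
    simp
  let x : ℕ → H M := fun j => x0 + inA (u j + v j)
  have hxG : ∀ j, x j ∈ G j := by
    intro j
    apply hu3
    · show lv (m j) (x0.1 + (u j + v j)) = lv (m j) (x0.1 + u j)
      rw [map_add, map_add, map_add, lv_vv _ _ _ _ (hml j), add_zero]
    · intro b hb
      rw [fx_add, fx_add, fx_inA, fx_inA, map_add, hevF j b hb, add_zero]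
  have hconv : ∀ b ∈ M, ∃ k, ∀ j ∈ I, k ≤ j → ev b (u j + v j) = 0 := by
    intro b hb
    by_cases hC : ∃ i, b ∈ F i
    · obtain ⟨i, hi⟩ := hC
      refine ⟨i + 1, fun j _ hj => hevz j b (hu2 j b (hEmono i j (by omega) hi))⟩
    · by_cases hb' : b ∈ M'
      · obtain ⟨k1, hk1⟩ := hl' b hb'
        obtain ⟨k2, hk2⟩ := hN b hb'
        refine ⟨max k1 k2, fun j _ hj => ?_⟩
        rw [map_add, hev, if_pos, two_eq]
        constructor
        · intro i hi
          exact le_trans (Finset.le_sup (f := fun i => b i) (Finset.mem_range.2 hi))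
            (hk2 j (le_trans (le_max_right _ _) hj))
        · intro c hc
          have hbc : b ≠ c := by
            rintro rfl
            exact hC ⟨j, hc⟩
          obtain ⟨i, hi, hne'⟩ := dl_spec hbc
          refine ⟨i, lt_of_lt_of_le hi ?_, hne'⟩
          refine le_trans (Finset.le_sup (f := fun c => dl b c) hc) ?_
          exact le_trans (hk1 j (le_trans (le_max_left _ _) hj)) (le_max_left _ _)
      · obtain ⟨k, hk⟩ := hbig b hb hb'
        exact ⟨k, fun j hjI hj => hevz j b (ev_zero_of_gg (hu1 j) (hk j hjI hj))⟩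
  refine ⟨Nat.nth (· ∈ I), Nat.nth_strictMono hI, fun k => x (Nat.nth (· ∈ I) k),
    fun k => hxG _, ?_⟩
  have hmem : ∀ k, Nat.nth (· ∈ I) k ∈ I := fun k => Nat.nth_mem_of_infinite hI k
  have hge : ∀ k, k ≤ Nat.nth (· ∈ I) k := fun k => (Nat.nth_strictMono hI).le_apply
  rw [tendsto_iff' hne]
  constructor
  · intro n
    filter_upwards [eventually_ge_atTop n] with k hk
    show lv n (x0.1 + (u _ + v _)) = lv n x0.1
    have h1 : n ≤ Nat.nth (· ∈ I) k + 1 := by have := hge k; omega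
    have h2 : lv n (u (Nat.nth (· ∈ I) k)) = 0 := by
      rw [← lv_lv h1, hu1, map_zero]
    have h3 : lv n (v (Nat.nth (· ∈ I) k)) = 0 := lv_vv _ _ _ _ (h1.trans (hjl _))
    rw [map_add, map_add, h2, h3, add_zero, add_zero]
  · intro b hb
    obtain ⟨k0, hk0⟩ := hconv b hb
    filter_upwards [eventually_ge_atTop k0] with k hk
    show fx (x0 + inA _) b = fx x0 b
    rw [fx_add, fx_inA, hk0 _ (hmem k) (le_trans hk (hge k)), add_zero]

/-- Convergent sequences eventually have constant second coordinate. -/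
theorem snd_eventually {M : Set (ℕ → ℕ)} (hM : Good M) {x : ℕ → H M} {x0 : H M}
    (h : Tendsto x atTop (𝓝 x0)) : ∀ᶠ k in atTop, (x k).2 = x0.2 := by
  classical
  have hne := hM.nonempty
  by_contra hcon
  rw [Filter.not_eventually] at hcon
  rw [tendsto_iff' hne] at h
  obtain ⟨h1, h2⟩ := h
  -- choose a subsequence
  have hsub : ∀ j : ℕ, ∃ k, j ≤ k ∧ (x k).2 ≠ x0.2 ∧ lv (j + 1) (x k).1 = lv (j + 1) x0.1 := by
    intro j
    obtain ⟨k, hk, hk2, hk3⟩ := (hcon.and_eventually ((h1 (j + 1)).and (eventually_ge_atTop j))).exists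
    exact ⟨k, hk3, hk, hk2⟩
  choose κ hκ1 hκ2 hκ3 using hsub
  let u : ℕ → (T →₀ ZMod 2) := fun j => (x (κ j)).1 - x0.1
  have hu : ∀ j, lv (j + 1) (u j) = 0 := by
    intro j
    simp only [u]
    rw [map_sub, hκ3, sub_self]
  obtain ⟨I, hI, _, _, _, b, hb, hbI⟩ := hM (fun j => gg (u j) j)
  have hκt : Tendsto κ atTop atTop := tendsto_atTop_mono hκ1 tendsto_id
  obtain ⟨k0, hk0⟩ := eventually_atTop.1 (hκt.eventually (h2 b hb))
  obtain ⟨j, hjI, hj⟩ := hI.exists_gt k0
  have e1 := hk0 j hj.le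
  have e2 : ev b (u j) = 0 := ev_zero_of_gg (hu j) (hbI j hjI)
  simp only [u] at e2
  rw [map_sub] at e2
  unfold fx at e1
  have e3 : ev b (x (κ j)).1 = ev b x0.1 := sub_eq_zero.1 e2
  rw [e3] at e1
  exact hκ2 j (add_left_cancel e1)

end Pool.Agent.R818.AS
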