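import Mathlib
import Pool.Agent.R818.AS.Main

/-!
# Ascoli, not k_R
-/

set_option autoImplicit false

open Set Filter Topology

namespace Pool.Agent.R818.AS

/-- Every compact subset of `C_k(X)` is evenly continuous. -/
def IsAscoli (X : Type) [TopologicalSpace X] : Prop :=
  ∀ K : Set C(X, ℝ), IsCompact K → Continuous (fun p : X × K => (p.2 : C(X, ℝ)) p.1)

/-- `k_ℝ`-spaces: real functions which are continuous on all compact sets are continuous. -/
def IsKR (X : Type) [TopologicalSpace X] : Prop :=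
  ∀ f : X → ℝ, (∀ K : Set X, IsCompact K → ContinuousOn f K) → Continuous f

theorem ascoli_of_strong {X : Type} [TopologicalSpace X] [Countable X]
    (hS : ∀ (G : ℕ → Set X), (∀ n, IsOpen (G n)) → ∀ x0 : X, (∀ n, x0 ∈ closure (G n)) →
      ∃ φ : ℕ → ℕ, StrictMono φ ∧ ∃ y : ℕ → X, (∀ k, y k ∈ G (φ k)) ∧ Tendsto y atTop (𝓝 x0)) :
    IsAscoli X := by
  intro K hK
  haveI : CompactSpace K := isCompact_iff_compactSpace.1 hK
  -- `K` is first countable
  let e : K → (X → ℝ) := fun f x => (f : C(X, ℝ)) x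
  have he : Continuous e := by
    apply continuous_pi
    intro x
    exact (continuous_eval_const (F := C(X, ℝ)) x).comp continuous_subtype_val
  have hinj : Function.Injective e := by
    intro f g h
    apply Subtype.ext
    apply ContinuousMap.ext
    intro x
    exact congrFun h x
  have hemb : Topology.IsEmbedding e := (he.isClosedEmbedding hinj).isEmbedding
  haveI : FirstCountableTopology K := hemb.isInducing.firstCountableTopology
  rw [continuous_iff_continuousAt]
  rintro ⟨x0, f0⟩
  rw [ContinuousAt, Metric.tendsto_nhds]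
  by_contra hcon
  push Not at hcon
  obtain ⟨ε, hε, hcon⟩ := hcon
  have hfreq : ∀ s ∈ 𝓝 (x0, f0), ∃ p ∈ s, ε ≤ dist ((p.2 : C(X, ℝ)) p.1) ((f0 : C(X, ℝ)) x0) := by
    intro s hs
    by_contra h
    push Not at h
    obtain ⟨p, hp1, hp2⟩ := (hcon.and_eventually hs).exists
    exact absurd (h p hp2) (not_lt.2 hp1)
  obtain ⟨w, hw⟩ := (𝓝 f0).exists_antitone_basis
  let G : ℕ → Set X := fun n => ⋃ f ∈ w n, {x | ε / 2 < dist ((f : C(X, ℝ)) x) ((f0 : C(X, ℝ)) x)}
  have hG : ∀ n, IsOpen (G n) := by
    intro n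
    apply isOpen_biUnion
    intro f _
    exact isOpen_lt continuous_const (((f : C(X, ℝ)).continuous).dist (f0 : C(X, ℝ)).continuous)
  have hx : ∀ n, x0 ∈ closure (G n) := by
    intro n
    rw [mem_closure_iff_nhds]
    intro O hO
    have hO2 : {x | dist ((f0 : C(X, ℝ)) x) ((f0 : C(X, ℝ)) x0) < ε / 2} ∈ 𝓝 x0 := by
      have := ((f0 : C(X, ℝ)).continuous.tendsto x0)
      rw [Metric.tendsto_nhds] at this
      exact this (ε / 2) (by linarith)
    obtain ⟨⟨x, f⟩, hxf, hd⟩ := hfreq _ (prod_mem_nhds (Filter.inter_mem hO hO2) (hw.1.mem_of_mem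
      (i := n) trivial))
    obtain ⟨⟨hxO, hxO2⟩, hf⟩ := hxf
    refine ⟨x, hxO, ?_⟩
    refine Set.mem_biUnion hf ?_
    show ε / 2 < _
    have h1 : dist ((f : C(X, ℝ)) x) ((f0 : C(X, ℝ)) x0) ≤
      dist ((f : C(X, ℝ)) x) ((f0 : C(X, ℝ)) x) + dist ((f0 : C(X, ℝ)) x) ((f0 : C(X, ℝ)) x0) :=
      dist_triangle _ _ _
    have h2 : dist ((f0 : C(X, ℝ)) x) ((f0 : C(X, ℝ)) x0) < ε / 2 := hxO2
    simp only at hd
    linarith
  obtain ⟨φ, hφ, y, hy, hyt⟩ := hS G hG x0 hx
  have hy2 : ∀ k, ∃ f ∈ w (φ k), ε / 2 < dist ((f : C(X, ℝ)) (y k)) ((f0 : C(X, ℝ)) (y k)) := by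
    intro k
    have := hy k
    simp only [G, Set.mem_iUnion] at this
    obtain ⟨f, hf, hd⟩ := this
    exact ⟨f, hf, hd⟩
  choose F hF hFd using hy2
  have hFt : Tendsto F atTop (𝓝 f0) := by
    exact hw.tendsto (fun k => hw.2 hφ.le_apply (hF k))
  have hFt2 : Tendsto (fun k => (F k : C(X, ℝ))) atTop (𝓝 (f0 : C(X, ℝ))) :=
    (continuous_subtype_val.tendsto f0).comp hFt
  rw [ContinuousMap.tendsto_iff_forall_isCompact_tendstoUniformlyOn] at hFt2
  have hcomp : IsCompact (insert x0 (Set.range y)) := hyt.isCompact_insert_range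
  have huni := hFt2 _ hcomp
  rw [Metric.tendstoUniformlyOn_iff] at huni
  obtain ⟨k, hk⟩ := (huni (ε / 2) (by linarith)).exists
  have h1 := hk (y k) (Set.mem_insert_of_mem _ ⟨k, rfl⟩)
  have h2 := hFd k
  rw [dist_comm] at h1
  linarith


theorem not_kR {M : Set (ℕ → ℕ)} (hM : Good M) : ¬ IsKR (H M) := by
  classical
  have hne := hM.nonempty
  haveI := t35 hne
  intro hk
  let f : H M → ℝ := fun x => if x.2 = 0 then 1 else 0
  have hcont : Continuous f := by
    apply hk
    intro K hK
    rw [continuousOn_iff_continuous_restrict]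
    haveI : CompactSpace K := isCompact_iff_compactSpace.1 hK
    -- `K` is first countable
    obtain ⟨b0, hb0⟩ := hne
    let e : K → (ℕ → W) := fun x n => Phi M x (n, ⟨b0, hb0⟩)
    have he : Continuous e := by
      apply continuous_pi
      intro n
      exact ((continuous_apply _).comp continuous_induced_dom).comp continuous_subtype_val
    have hinj : Function.Injective e := by
      intro x y h
      apply Subtype.ext
      have h1 : (x : H M).1 = (y : H M).1 := by
        ext t
        have := congrArg Prod.fst (congrFun h (t.1 + 1))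
        have h2 := DFunLike.congr_fun (show lv (t.1 + 1) (x : H M).1 = lv (t.1 + 1) (y : H M).1
          from this) t
        rw [lv_apply, lv_apply, if_pos (by omega), if_pos (by omega)] at h2
        exact h2
      have h2 : fx (x : H M) b0 = fx (y : H M) b0 := congrArg Prod.snd (congrFun h 0)
      unfold fx at h2
      rw [h1] at h2
      exact Prod.ext h1 (add_left_cancel h2)
    have hemb : Topology.IsEmbedding e := (he.isClosedEmbedding hinj).isEmbedding
    haveI : FirstCountableTopology K := hemb.isInducing.firstCountableTopology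
    rw [continuous_iff_seqContinuous]
    intro x x0 hx
    have hx' : Tendsto (fun k => (x k : H M)) atTop (𝓝 (x0 : H M)) :=
      (continuous_subtype_val.tendsto x0).comp hx
    have := snd_eventually hM hx'
    refine tendsto_const_nhds.congr' ?_
    filter_upwards [this] with k hk'
    show f x0 = f (x k)
    simp only [f]
    rw [hk']
  -- but `f` is not continuous at `(0,1)`
  let h1 : H M := ((0 : T →₀ ZMod 2), (1 : ZMod 2))
  have hz : f h1 = 0 := by
    simp [f, h1]
  have hO : f ⁻¹' (Metric.ball 0 (1 / 2)) ∈ 𝓝 h1 := by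
    apply hcont.continuousAt
    rw [hz]
    exact Metric.ball_mem_nhds _ (by norm_num)
  obtain ⟨n, F, _, hF⟩ := (mem_nhds_iff' hne).1 hO
  obtain ⟨a, ha1, ha2⟩ := exists_dense n F
  have := hF (inA a) (by
    show lv n a = lv n 0
    rw [ha1, map_zero]) (by
    intro b hb
    rw [fx_inA, ha2 b hb]
    show (1 : ZMod 2) = ev b 0 + 1
    rw [map_zero, zero_add])
  have h2 : f (inA a) = 1 := by
    simp only [f]
    exact if_pos rfl
  rw [Set.mem_preimage, h2, Metric.mem_ball] at this
  norm_num at this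

end Pool.Agent.R818.AS
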